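import Pool.Agent.H30.DiaC

set_option autoImplicit false

namespace Pool.Agent.Results.MP_6bb66b_gt.Diamond

open Pool.Agent.H30.Dia

/-- Under the diamond principle there is an uncountable open Whyburn semi-regular Tychonoff space
whose space of quasicontinuous real functions is Frechet-Urysohn in the pointwise topology. -/
theorem result (h : Diamond) : ∃ (X : Type) (_ : TopologicalSpace X),
    Uncountable X ∧ T35Space X ∧ T2Space X ∧
    (∀ A : Set X, IsOpen A → ∀ x ∈ closure A \ A, ∃ B, IsOpen B ∧ B ⊆ A ∧ closure B \ A = {x}) ∧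
    TopologicalSpace.IsTopologicalBasis {U : Set X | U = interior (closure U)} ∧
    FrechetUrysohnSpace {f : X → ℝ // QC f} := by
  obtain ⟨t, ht⟩ := exists_tr h False
  exact ⟨Sp t, inferInstance, unc t, inferInstance, inferInstance, ht.whyburn, ht.semireg, ht.qp⟩

end Pool.Agent.Results.MP_6bb66b_gt.Diamond
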